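import Mathlib
import Pool.Agent.H142R3.Brauer

set_option autoImplicit false

/-!
# Partition regularity of `x - 2 y = p(z)`: complete characterization
-/

namespace Pool.Agent.Results.MP_0ef770_co.Characterization

open Polynomial

/-- The equation `x - 2 y = p(z)` is partition regular: every finite colouring of the positive
integers has a solution in positive integers `x, y, z` (not necessarily distinct) of one colour. -/
def Regular (p : ℤ[X]) : Prop :=
  ∀ (r : ℕ) (c : {n : ℕ // 0 < n} → Fin r), ∃ x y z : {n : ℕ // 0 < n},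
    ((x : ℕ) : ℤ) - 2 * ((y : ℕ) : ℤ) = p.eval ((z : ℕ) : ℤ) ∧ c x = c y ∧ c y = c z

theorem not_regular_of {κ : Type} [Finite κ] (p : ℤ[X]) (c : ℕ → κ)
    (h : ∀ x y z : ℕ, 0 < x → 0 < y → 0 < z → (x : ℤ) - 2 * y = p.eval (z : ℤ) →
      c x = c y → c y = c z → False) : ¬ Regular p := by
  intro hr
  obtain ⟨x, y, z, h1, h2, h3⟩ := hr (Nat.card κ) (fun n => Finite.equivFin κ (c n))
  exact h x y z x.2 y.2 z.2 h1 ((Finite.equivFin κ).injective h2) ((Finite.equivFin κ).injective h3)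

/-! ### Positive part -/

theorem regular_of_root (p : ℤ[X]) (t : ℕ) (ht : 0 < t) (h : p.eval (t : ℤ) = -(t : ℤ)) :
    Regular p := by
  intro r c
  refine ⟨⟨t, ht⟩, ⟨t, ht⟩, ⟨t, ht⟩, ?_, rfl, rfl⟩
  rw [h]; ring

/-- Extend a colouring of the positive integers to `ℕ`. -/
def ext {r : ℕ} (c : {n : ℕ // 0 < n} → Fin r) (n : ℕ) : Fin r :=
  if h : 0 < n then c ⟨n, h⟩ else c ⟨1, one_pos⟩

theorem ext_pos {r : ℕ} (c : {n : ℕ // 0 < n} → Fin r) (n : ℕ) (h : 0 < n) :
    ext c n = c ⟨n, h⟩ := by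
  simp [ext, h]

theorem regular_X : Regular (X : ℤ[X]) := by
  intro r c
  obtain ⟨a, d, ha, hd, h1, h2⟩ := H142R3.Brauer.brauer_fin 2 1 one_pos (ext c)
  have h3 := h2 2 le_rfl
  rw [one_mul, ext_pos c d hd, ext_pos c a ha] at h1
  rw [ext_pos c _ (by positivity), ext_pos c a ha] at h3
  refine ⟨⟨a + 2 * d, by positivity⟩, ⟨d, hd⟩, ⟨a, ha⟩, ?_, ?_, ?_⟩
  · simp
  · rw [h3, h1]
  · exact h1

theorem regular_neg_two_X : Regular (C (-2) * X : ℤ[X]) := by
  intro r c
  obtain ⟨a, d, ha, hd, h1, h2⟩ := H142R3.Brauer.brauer_fin 1 2 two_pos (ext c)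
  have h3 := h2 1 le_rfl
  rw [ext_pos c (2 * d) (by positivity), ext_pos c a ha] at h1
  rw [ext_pos c _ (by positivity), ext_pos c a ha] at h3
  refine ⟨⟨2 * d, by positivity⟩, ⟨a + 1 * d, by positivity⟩, ⟨a, ha⟩, ?_, ?_, ?_⟩
  · simp
    ring
  · rw [h3, h1]
  · exact h3

/-! ### Linear polynomials: Rado's colouring by the last nonzero digit -/

/-- Last nonzero digit of `n` in base `q`. -/
def lastDigit (q n : ℕ) : ZMod q := ((n / q ^ padicValNat q n : ℕ) : ZMod q)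

theorem lastDigit_spec (q : ℕ) (hq : q.Prime) (n : ℕ) (hn : 0 < n) :
    ∃ i m : ℕ, n = q ^ i * m ∧ lastDigit q n = (m : ZMod q) ∧ (m : ZMod q) ≠ 0 := by
  have := Fact.mk hq
  refine ⟨padicValNat q n, n / q ^ padicValNat q n, ?_, rfl, ?_⟩
  · exact (Nat.mul_div_cancel' pow_padicValNat_dvd).symm
  · intro h
    rw [ZMod.natCast_eq_zero_iff] at h
    obtain ⟨w, hw⟩ := h
    have h1 : q ^ padicValNat q n * (n / q ^ padicValNat q n) = n :=
      Nat.mul_div_cancel' pow_padicValNat_dvd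
    rw [hw] at h1
    have h2 : q ^ (padicValNat q n + 1) ∣ n := ⟨w, by
      rw [pow_succ, mul_assoc]; exact h1.symm⟩
    exact absurd h2 (pow_succ_padicValNat_not_dvd hn.ne')

theorem reduce (q : ℕ) (hq : q.Prime) (D : ZMod q) (hD : D ≠ 0) (c : ℤ) (i j k m : ℕ)
    (X Y Z : ℕ) (hX : (X : ZMod q) = D) (hY : (Y : ZMod q) = D) (hZ : (Z : ZMod q) = D)
    (hi : m ≤ i) (hj : m ≤ j) (hk : m ≤ k)
    (h : ((q ^ i * X : ℕ) : ℤ) - 2 * ((q ^ j * Y : ℕ) : ℤ) = c * ((q ^ k * Z : ℕ) : ℤ)) :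
    (q : ZMod q) ^ (i - m) - 2 * (q : ZMod q) ^ (j - m) - c * (q : ZMod q) ^ (k - m) = 0 := by
  have := Fact.mk hq
  have hq0 : ((q : ℤ)) ^ m ≠ 0 := pow_ne_zero _ (by exact_mod_cast hq.ne_zero)
  obtain ⟨i', rfl⟩ := Nat.exists_eq_add_of_le hi
  obtain ⟨j', rfl⟩ := Nat.exists_eq_add_of_le hj
  obtain ⟨k', rfl⟩ := Nat.exists_eq_add_of_le hk
  simp only [Nat.add_sub_cancel_left]
  have h1 : (q : ℤ) ^ i' * X - 2 * ((q : ℤ) ^ j' * Y) - c * ((q : ℤ) ^ k' * Z) = 0 := by
    apply mul_left_cancel₀ hq0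
    push_cast at h
    rw [mul_zero]
    have : (q : ℤ) ^ m * ((q : ℤ) ^ i' * X - 2 * ((q : ℤ) ^ j' * Y) - c * ((q : ℤ) ^ k' * Z))
        = (q : ℤ) ^ (m + i') * X - 2 * ((q : ℤ) ^ (m + j') * Y)
          - c * ((q : ℤ) ^ (m + k') * Z) := by ring
    rw [this, h]; ring
  have h2 := congrArg (fun t : ℤ => (t : ZMod q)) h1
  push_cast at h2
  rw [hX, hY, hZ] at h2
  have h3 : ((q : ZMod q) ^ i' - 2 * (q : ZMod q) ^ j' - c * (q : ZMod q) ^ k') * D = 0 := by
    rw [← h2]; ring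
  exact (mul_eq_zero.mp h3).resolve_right hD

theorem linear_core (q : ℕ) (hq : q.Prime) (c : ℤ) (hc0 : (c : ZMod q) ≠ 0 ∨ c = 0)
    (h2 : (2 : ZMod q) ≠ 0)
    (hc1 : (c : ZMod q) ≠ 1) (hc2 : (c : ZMod q) ≠ -1) (hc3 : (c : ZMod q) ≠ -2)
    (x y z : ℕ) (hx : 0 < x) (hy : 0 < y) (hz : 0 < z) (h : (x : ℤ) - 2 * y = c * z)
    (hxy : lastDigit q x = lastDigit q y) (hyz : lastDigit q y = lastDigit q z) : False := by
  have := Fact.mk hq
  obtain ⟨i, X, rfl, hX, hX0⟩ := lastDigit_spec q hq x hx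
  obtain ⟨j, Y, rfl, hY, hY0⟩ := lastDigit_spec q hq y hy
  obtain ⟨k, Z, rfl, hZ, hZ0⟩ := lastDigit_spec q hq z hz
  have hXZ : (X : ZMod q) = Z := by rw [← hX, hxy, hyz, hZ]
  have hYZ : (Y : ZMod q) = Z := by rw [← hY, hyz, hZ]
  have hpow : ∀ n : ℕ, (n = 0 ∧ (q : ZMod q) ^ n = 1) ∨ (n ≠ 0 ∧ (q : ZMod q) ^ n = 0) := by
    intro n
    rcases Nat.eq_zero_or_pos n with h | h
    · left; subst h; simp
    · right; exact ⟨h.ne', by simp [h.ne']⟩
  rcases hc0 with hc0 | hc0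
  · have key := reduce q hq (Z : ZMod q) hZ0 c i j k (min i (min j k)) X Y Z hXZ hYZ rfl
      (by omega) (by omega) (by omega) h
    rcases hpow (i - min i (min j k)) with ⟨a1, b1⟩ | ⟨a1, b1⟩ <;>
    rcases hpow (j - min i (min j k)) with ⟨a2, b2⟩ | ⟨a2, b2⟩ <;>
    rcases hpow (k - min i (min j k)) with ⟨a3, b3⟩ | ⟨a3, b3⟩ <;>
    rw [b1, b2, b3] at key
    · exact hc2 (by linear_combination -key)
    · exact one_ne_zero (α := ZMod q) (by linear_combination -key)
    · exact hc1 (by linear_combination -key)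
    · exact one_ne_zero (α := ZMod q) (by linear_combination key)
    · exact hc3 (by linear_combination -key)
    · exact h2 (by linear_combination -key)
    · exact hc0 (by linear_combination -key)
    · omega
  · subst hc0
    have key := reduce q hq (Z : ZMod q) hZ0 0 i j (max i j) (min i j) X Y Z hXZ hYZ rfl
      (by omega) (by omega) (by omega) (by simpa using h)
    rcases hpow (i - min i j) with ⟨a1, b1⟩ | ⟨a1, b1⟩ <;>
    rcases hpow (j - min i j) with ⟨a2, b2⟩ | ⟨a2, b2⟩ <;>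
    rw [b1, b2] at key
    · exact one_ne_zero (α := ZMod q) (by push_cast at key; linear_combination -key)
    · exact one_ne_zero (α := ZMod q) (by push_cast at key; linear_combination key)
    · exact h2 (by push_cast at key; linear_combination -key)
    · omega

/-- The linear case: `x - 2 y = c z` is not partition regular when `c` is not `1`, `-1`, `-2`. -/
theorem not_regular_linear (c : ℤ) (h1 : c ≠ 1) (h2 : c ≠ -1) (h3 : c ≠ -2) :
    ¬ Regular (C c * X) := by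
  obtain ⟨q, hqge, hq⟩ := Nat.exists_infinite_primes (c.natAbs + 4)
  have := Fact.mk hq
  have key : ∀ a : ℤ, a ≠ 0 → a.natAbs < q → (a : ZMod q) ≠ 0 := by
    intro a ha hlt h
    rw [ZMod.intCast_zmod_eq_zero_iff_dvd] at h
    exact ha (Int.eq_zero_of_abs_lt_dvd h (by rw [Int.abs_eq_natAbs]; exact_mod_cast hlt))
  refine not_regular_of (κ := ZMod q) _ (lastDigit q) ?_
  intro x y z hx hy hz h hxy hyz
  refine linear_core q hq c ?_ ?_ ?_ ?_ ?_ x y z hx hy hz (by simpa using h) hxy hyz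
  · by_cases hc : c = 0
    · exact Or.inr hc
    · exact Or.inl (key c hc (by omega))
  · have := key 2 (by norm_num) (by omega)
    exact_mod_cast this
  · intro e
    have := key (c - 1) (by omega) (by omega)
    apply this
    push_cast
    rw [e]; ring
  · intro e
    have := key (c + 1) (by omega) (by omega)
    apply this
    push_cast
    rw [e]; ring
  · intro e
    have := key (c + 2) (by omega) (by omega)
    apply this
    push_cast
    rw [e]; ring

/-! ### Polynomials of degree at least two -/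

theorem growth (p : ℤ[X]) : ∃ N : ℕ, ∀ z : ℕ, N < z →
    |p.leadingCoeff| * (z : ℤ) ^ p.natDegree ≤ 2 * |p.eval (z : ℤ)| ∧
    2 * |p.eval (z : ℤ)| ≤ 3 * |p.leadingCoeff| * (z : ℤ) ^ p.natDegree := by
  have hinj : Function.Injective (Int.castRingHom ℝ) := Int.cast_injective
  have h := Polynomial.isEquivalent_atTop_lead (p.map (Int.castRingHom ℝ))
  have h2 := (h.isLittleO).def (show (0 : ℝ) < 1 / 2 by norm_num)
  rw [Filter.eventually_atTop] at h2
  obtain ⟨R, hR⟩ := h2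
  obtain ⟨N, hN⟩ := exists_nat_gt R
  refine ⟨N, ?_⟩
  intro z hz
  have hzR : R ≤ (z : ℝ) := hN.le.trans (by exact_mod_cast hz.le)
  have h3 := hR z hzR
  rw [Polynomial.natDegree_map_eq_of_injective hinj, Polynomial.leadingCoeff_map_of_injective hinj]
    at h3
  have e1 : Polynomial.eval (z : ℝ) (p.map (Int.castRingHom ℝ)) = ((p.eval (z : ℤ) : ℤ) : ℝ) := by
    rw [Polynomial.eval_map, show (z : ℝ) = (Int.castRingHom ℝ) (z : ℤ) by simp,
      Polynomial.eval₂_hom]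
    simp
  simp only [Pi.sub_apply, e1, Real.norm_eq_abs] at h3
  have h4 : |((p.eval (z : ℤ) : ℤ) : ℝ) - (p.leadingCoeff : ℝ) * (z : ℝ) ^ p.natDegree|
      ≤ 1 / 2 * |(p.leadingCoeff : ℝ) * (z : ℝ) ^ p.natDegree| := by simpa using h3
  have h5 : |(p.leadingCoeff : ℝ) * (z : ℝ) ^ p.natDegree|
      = |(p.leadingCoeff : ℝ)| * (z : ℝ) ^ p.natDegree := by
    rw [abs_mul, abs_of_nonneg (by positivity : (0 : ℝ) ≤ (z : ℝ) ^ p.natDegree)]
  have h6 := abs_sub_abs_le_abs_sub ((p.eval (z : ℤ) : ℤ) : ℝ)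
    ((p.leadingCoeff : ℝ) * (z : ℝ) ^ p.natDegree)
  have h7 := abs_sub_abs_le_abs_sub ((p.leadingCoeff : ℝ) * (z : ℝ) ^ p.natDegree)
    ((p.eval (z : ℤ) : ℤ) : ℝ)
  rw [abs_sub_comm] at h7
  rw [h5] at h4 h6 h7
  constructor
  · have : |(p.leadingCoeff : ℝ)| * (z : ℝ) ^ p.natDegree ≤ 2 * |((p.eval (z : ℤ) : ℤ) : ℝ)| := by
      linarith
    exact_mod_cast this
  · have : 2 * |((p.eval (z : ℤ) : ℤ) : ℝ)| ≤ 3 * |(p.leadingCoeff : ℝ)| * (z : ℝ) ^ p.natDegree := by
      linarith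
    exact_mod_cast this

theorem log_two_scale {x y : ℕ} (hy : 0 < y) (h1 : 3 * y ≤ 2 * x) (h2 : 2 * x ≤ 5 * y) :
    Nat.log 2 (x ^ 2) % 4 ≠ Nat.log 2 (y ^ 2) % 4 := by
  have hy2 : y ^ 2 ≠ 0 := by positivity
  have a1 : y ^ 2 * 2 ≤ x ^ 2 := by nlinarith
  have a2 : x ^ 2 ≤ y ^ 2 * 2 * 2 * 2 := by nlinarith
  have b1 := Nat.log_mono_right (b := 2) a1
  have b2 := Nat.log_mono_right (b := 2) a2
  rw [Nat.log_mul_base (by norm_num) hy2] at b1
  rw [Nat.log_mul_base (by norm_num) (by positivity), Nat.log_mul_base (by norm_num) (by positivity),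
    Nat.log_mul_base (by norm_num) hy2] at b2
  omega

theorem loglog_scale {d l l' : ℕ} (hd : 2 ≤ d) (hl : 0 < l) (h1 : (2 * d - 1) * l ≤ 2 * l')
    (h2 : 2 * l' ≤ (2 * d + 1) * l) :
    Nat.log d (l' ^ 2) % 4 ≠ Nat.log d (l ^ 2) % 4 := by
  obtain ⟨e, rfl⟩ := Nat.exists_eq_add_of_le hd
  have hl2 : l ^ 2 ≠ 0 := by positivity
  have e1 : 2 * (2 + e) - 1 = 2 * e + 3 := by omega
  rw [e1] at h1
  have a1 : l ^ 2 * (2 + e) ≤ l' ^ 2 := by
    have h3 : ((2 * e + 3) * l) ^ 2 ≤ (2 * l') ^ 2 := Nat.pow_le_pow_left h1 2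
    have h4 : 4 * (l ^ 2 * (2 + e)) ≤ ((2 * e + 3) * l) ^ 2 := by nlinarith [Nat.zero_le (e ^ 2 * l ^ 2), Nat.zero_le (e * l ^ 2)]
    nlinarith
  have a2 : l' ^ 2 ≤ l ^ 2 * (2 + e) * (2 + e) * (2 + e) := by
    have h3 : (2 * l') ^ 2 ≤ ((2 * (2 + e) + 1) * l) ^ 2 := Nat.pow_le_pow_left h2 2
    have h4 : ((2 * (2 + e) + 1) * l) ^ 2 ≤ 4 * (l ^ 2 * (2 + e) * (2 + e) * (2 + e)) := by
      have : ((2 * (2 + e) + 1) * l) ^ 2 = (4 * e ^ 2 + 20 * e + 25) * l ^ 2 := by ring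
      rw [this]
      have : 4 * (l ^ 2 * (2 + e) * (2 + e) * (2 + e)) = (4 * e ^ 3 + 24 * e ^ 2 + 48 * e + 32) * l ^ 2 := by ring
      rw [this]
      apply Nat.mul_le_mul_right
      nlinarith [Nat.zero_le (e ^ 3), Nat.zero_le (e ^ 2)]
    nlinarith
  have b1 := Nat.log_mono_right (b := 2 + e) a1
  have b2 := Nat.log_mono_right (b := 2 + e) a2
  rw [Nat.log_mul_base (by omega) hl2] at b1
  rw [Nat.log_mul_base (by omega) (by positivity), Nat.log_mul_base (by omega) (by positivity),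
    Nat.log_mul_base (by omega) hl2] at b2
  omega

/-- If `W` is comparable to `z ^ d` then the second colour distinguishes `W` and `z`. -/
theorem loglog_core {d C z W : ℕ} (hd : 2 ≤ d) (hC : 0 < C)
    (hz : 2 ^ (2 * (d + C) + 4) < z) (h1 : z ^ d ≤ 4 * W) (h2 : W ≤ C * z ^ d) :
    Nat.log d (Nat.log 2 W ^ 2) % 4 ≠ Nat.log d (Nat.log 2 z ^ 2) % 4 := by
  have hz0 : z ≠ 0 := by
    rintro rfl
    exact absurd hz (Nat.not_lt_zero _)
  have hzd : 0 < z ^ d := Nat.pos_of_ne_zero (pow_ne_zero _ hz0)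
  have hW0 : W ≠ 0 := by omega
  set l := Nat.log 2 z with hl
  set l' := Nat.log 2 W with hl'
  have hlge : 2 * (d + C) + 4 ≤ l := by
    rw [hl]
    calc 2 * (d + C) + 4 = Nat.log 2 (2 ^ (2 * (d + C) + 4)) := (Nat.log_pow (by norm_num) _).symm
      _ ≤ Nat.log 2 z := Nat.log_mono_right hz.le
  have hzl : 2 ^ l ≤ z := Nat.pow_log_le_self 2 hz0
  have hzu : z < 2 ^ (l + 1) := Nat.lt_pow_succ_log_self (by norm_num) z
  have hWl : 2 ^ l' ≤ W := Nat.pow_log_le_self 2 hW0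
  have hWu : W < 2 ^ (l' + 1) := Nat.lt_pow_succ_log_self (by norm_num) W
  -- lower bound for l'
  have hlow : d * l < l' + 3 := by
    have h3 : 2 ^ (d * l) < 2 ^ (l' + 3) := by
      calc 2 ^ (d * l) = (2 ^ l) ^ d := by rw [← pow_mul, mul_comm]
        _ ≤ z ^ d := Nat.pow_le_pow_left hzl d
        _ ≤ 4 * W := h1
        _ < 4 * 2 ^ (l' + 1) := by omega
        _ = 2 ^ (l' + 3) := by rw [pow_succ, pow_succ, pow_succ]; ring
    exact (Nat.pow_lt_pow_iff_right (by norm_num)).mp h3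
  have hup : l' < C + d * (l + 1) := by
    have h3 : 2 ^ l' < 2 ^ (C + d * (l + 1)) := by
      calc 2 ^ l' ≤ W := hWl
        _ ≤ C * z ^ d := h2
        _ ≤ 2 ^ C * z ^ d := Nat.mul_le_mul_right _ (Nat.lt_two_pow_self).le
        _ < 2 ^ C * (2 ^ (l + 1)) ^ d :=
            Nat.mul_lt_mul_of_pos_left (Nat.pow_lt_pow_left hzu (by omega)) (by positivity)
        _ = 2 ^ (C + d * (l + 1)) := by
            rw [pow_add 2 C (d * (l + 1)), ← pow_mul, mul_comm (l + 1) d]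
    exact (Nat.pow_lt_pow_iff_right (by norm_num)).mp h3
  apply loglog_scale hd (by omega)
  · obtain ⟨e, rfl⟩ := Nat.exists_eq_add_of_le hd
    have e1 : 2 * (2 + e) - 1 = 2 * e + 3 := by omega
    rw [e1]
    nlinarith
  · nlinarith

/-- The colouring used for polynomials of degree `d ≥ 2`. -/
def col (N d n : ℕ) : Fin (N + 1) ⊕ (Fin 4 × Fin 4) :=
  if h : n ≤ N then Sum.inl ⟨n, Nat.lt_succ_of_le h⟩ else
    Sum.inr (⟨Nat.log 2 (n ^ 2) % 4, Nat.mod_lt _ (by norm_num)⟩,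
      ⟨Nat.log d (Nat.log 2 n ^ 2) % 4, Nat.mod_lt _ (by norm_num)⟩)

theorem not_regular_of_degree (p : ℤ[X]) (hd : 2 ≤ p.natDegree)
    (hroot : ∀ t : ℕ, 0 < t → p.eval (t : ℤ) ≠ -(t : ℤ)) : ¬ Regular p := by
  obtain ⟨N, hN⟩ := growth p
  set d := p.natDegree with hdd
  have hp : p ≠ 0 := by
    rintro rfl
    simp at hdd
    omega
  set A := p.leadingCoeff.natAbs with hA
  have hA1 : 1 ≤ A := by
    rw [hA]
    exact Nat.one_le_iff_ne_zero.mpr (Int.natAbs_ne_zero.mpr (leadingCoeff_ne_zero.mpr hp))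
  have hAabs : |p.leadingCoeff| = (A : ℤ) := by rw [hA]; exact Int.abs_eq_natAbs _
  set N0 := N + 2 ^ (2 * (d + 8 * A) + 4) with hN0
  refine not_regular_of p (col N0 d) ?_
  intro x y z hx hy hz h hxy hyz
  by_cases hxN : x ≤ N0
  · -- small numbers: all three are equal
    have hy' : y ≤ N0 := by
      by_contra hc
      simp [col, hxN, hc] at hxy
    have hz' : z ≤ N0 := by
      by_contra hc
      simp [col, hy', hc] at hyz
    simp only [col, hxN, hy', dif_pos, Sum.inl.injEq, Fin.mk.injEq] at hxy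
    simp only [col, hz', hy', dif_pos, Sum.inl.injEq, Fin.mk.injEq] at hyz
    subst hxy
    subst hyz
    exact hroot x hx (by rw [← h]; ring)
  · have hy' : ¬ y ≤ N0 := by
      intro hc
      simp [col, hxN, hc] at hxy
    have hz' : ¬ z ≤ N0 := by
      intro hc
      simp [col, hy', hc] at hyz
    simp only [col, hxN, hy', dif_neg, not_false_eq_true, Sum.inr.injEq, Prod.mk.injEq,
      Fin.mk.injEq] at hxy
    simp only [col, hz', hy', dif_neg, not_false_eq_true, Sum.inr.injEq, Prod.mk.injEq,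
      Fin.mk.injEq] at hyz
    obtain ⟨hxy1, hxy2⟩ := hxy
    obtain ⟨hyz1, hyz2⟩ := hyz
    have hpw : 0 < 2 ^ (2 * (d + 8 * A) + 4) := by positivity
    obtain ⟨g1, g2⟩ := hN z (by omega)
    rw [hAabs] at g1 g2
    rw [← h] at g1 g2
    have hzbig : 2 ^ (2 * (d + 8 * A) + 4) < z := by omega
    have hzd : (1 : ℤ) ≤ (z : ℤ) ^ d := by
      have : 0 < z ^ d := by positivity
      exact_mod_cast this
    have hA1' : (1 : ℤ) ≤ A := by exact_mod_cast hA1
    have hAz : (z : ℤ) ^ d ≤ (A : ℤ) * (z : ℤ) ^ d := by nlinarith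
    rcases le_or_gt (2 * |(x : ℤ) - 2 * y|) y with hcase | hcase
    · -- `p(z)` is small compared with `y`
      have hb := abs_le.mp (show |(x : ℤ) - 2 * y| ≤ |(x : ℤ) - 2 * y| from le_rfl)
      exact log_two_scale hy (by omega) (by omega) hxy1
    · rcases le_or_gt 0 ((x : ℤ) - 2 * y) with hs | hs
      · rw [abs_of_nonneg hs] at g1 g2 hcase
        have w1 : z ^ d ≤ 4 * x := by
          have : (z : ℤ) ^ d ≤ 4 * x := by nlinarith
          exact_mod_cast this
        have w2 : x ≤ 8 * A * z ^ d := by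
          have : (x : ℤ) ≤ 8 * A * (z : ℤ) ^ d := by nlinarith
          exact_mod_cast this
        exact loglog_core hd (by omega) hzbig w1 w2 (hxy2.trans hyz2)
      · rw [abs_of_neg hs] at g1 g2 hcase
        have w1 : z ^ d ≤ 4 * y := by
          have : (z : ℤ) ^ d ≤ 4 * y := by nlinarith
          exact_mod_cast this
        have w2 : y ≤ 8 * A * z ^ d := by
          have : (y : ℤ) ≤ 8 * A * (z : ℤ) ^ d := by nlinarith
          exact_mod_cast this
        exact loglog_core hd (by omega) hzbig w1 w2 hyz2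

/-- **Complete answer.** For an integer polynomial `p` with `p(0) = 0`, the equation
`x - 2 y = p(z)` is partition regular if and only if `p = t`, or `p = -2 t`, or it has a constant
solution, i.e. `p(t) = -t` for some positive integer `t`. -/
theorem result (p : ℤ[X]) (h0 : p.eval 0 = 0) :
    Regular p ↔ (p = X ∨ p = C (-2) * X ∨ ∃ t : ℕ, 0 < t ∧ p.eval (t : ℤ) = -(t : ℤ)) := by
  constructor
  · intro hr
    by_contra hcon
    push Not at hcon
    obtain ⟨h1, h2, h3⟩ := hcon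
    rcases Nat.lt_or_ge p.natDegree 2 with hd | hd
    · have hp : p = C (p.coeff 1) * X := by
        have e := Polynomial.eq_X_add_C_of_natDegree_le_one (show p.natDegree ≤ 1 by omega)
        have e0 : p.coeff 0 = 0 := by rw [Polynomial.coeff_zero_eq_eval_zero]; exact h0
        rw [e0] at e
        simpa using e
      rw [hp] at hr
      refine not_regular_linear (p.coeff 1) ?_ ?_ ?_ hr
      · intro hc
        apply h1
        rw [hp, hc]; simp
      · intro hc
        apply h3 1 one_pos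
        rw [hp, hc]; simp
      · intro hc
        apply h2
        rw [hp, hc]
    · exact not_regular_of_degree p hd h3 hr
  · rintro (rfl | rfl | ⟨t, ht, h⟩)
    · exact regular_X
    · exact regular_neg_two_X
    · exact regular_of_root p t ht h

end Pool.Agent.Results.MP_0ef770_co.Characterization
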